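import Mathlib

/-!
# The area of a centrally symmetric hexagon (lower bound)
-/

set_option autoImplicit false

open MeasureTheory
open scoped ENNReal

namespace Pool.Agent.Helper35_RADO

/-- The area of an axis-parallel rectangle. -/
theorem volume_box (a b c e : ℝ) :
    volume {z : EuclideanSpace ℝ (Fin 2) | a ≤ z 0 ∧ z 0 ≤ b ∧ c ≤ z 1 ∧ z 1 ≤ e} =
      ENNReal.ofReal (b - a) * ENNReal.ofReal (e - c) := by
  have h1 := (EuclideanSpace.volume_preserving_symm_measurableEquiv_toLp (Fin 2)).measure_preimage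
    (s := Set.Icc (![a, c] : Fin 2 → ℝ) ![b, e]) measurableSet_Icc.nullMeasurableSet
  rw [Real.volume_Icc_pi, Fin.prod_univ_two] at h1
  simp only [Matrix.cons_val_zero, Matrix.cons_val_one] at h1
  rw [← h1]
  congr 1
  ext z
  simp only [Set.mem_ofPred_eq, Set.mem_preimage, Set.mem_Icc, Pi.le_def, Fin.forall_fin_two]
  constructor
  · rintro ⟨h1, h2, h3, h4⟩
    exact ⟨⟨h1, h3⟩, h2, h4⟩
  · rintro ⟨⟨h1, h3⟩, h2, h4⟩
    exact ⟨h1, h2, h3, h4⟩

/-- The area of a hexagon, lower bound: `s, t ∈ (0, 1]`, `s + t > 1`. -/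
theorem area_hex {s t c : ℝ} (hs : 0 < s) (ht : 0 < t) (hs1 : s ≤ 1) (ht1 : t ≤ 1)
    (hc : c = s + t - 1) (hc0 : 0 < c) :
    ENNReal.ofReal (4 - c ^ 2 / (s * t)) ≤
      volume {z : EuclideanSpace ℝ (Fin 2) | |z 0| ≤ 1 ∧ |z 1| ≤ 1 ∧ |s * z 0 + t * z 1| ≤ 1} := by
  set H : Set (EuclideanSpace ℝ (Fin 2)) :=
    {z | |z 0| ≤ 1 ∧ |z 1| ≤ 1 ∧ |s * z 0 + t * z 1| ≤ 1} with hH
  set Q : Set (EuclideanSpace ℝ (Fin 2)) := {z | -1 ≤ z 0 ∧ z 0 ≤ 1 ∧ -1 ≤ z 1 ∧ z 1 ≤ 1} with hQ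
  set T : Set (EuclideanSpace ℝ (Fin 2)) := {z | z 0 ≤ 1 ∧ z 1 ≤ 1 ∧ 1 < s * z 0 + t * z 1} with hT
  set R : Set (EuclideanSpace ℝ (Fin 2)) :=
    {z | 1 - c / s ≤ z 0 ∧ z 0 ≤ 1 ∧ 1 - c / t ≤ z 1 ∧ z 1 ≤ 1} with hR
  have hcs : s * (c / s) = c := by field_simp
  have hct : t * (c / t) = c := by field_simp
  have hvQ : volume Q = 4 := by
    rw [hQ, volume_box]
    norm_num [← ENNReal.ofReal_mul]
  have hvR : volume R = ENNReal.ofReal (c ^ 2 / (s * t)) := by
    rw [hR, volume_box, ← ENNReal.ofReal_mul (by have : 0 < c / s := by positivity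
                                                 linarith)]
    congr 1
    field_simp
    ring
  have hc0' : Continuous fun z : EuclideanSpace ℝ (Fin 2) => z 0 := by fun_prop
  have hc1' : Continuous fun z : EuclideanSpace ℝ (Fin 2) => z 1 := by fun_prop
  have hTm : MeasurableSet T := by
    have h1 : IsClosed {z : EuclideanSpace ℝ (Fin 2) | z 0 ≤ 1} := isClosed_le hc0' continuous_const
    have h2 : IsClosed {z : EuclideanSpace ℝ (Fin 2) | z 1 ≤ 1} := isClosed_le hc1' continuous_const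
    have h3 : IsOpen {z : EuclideanSpace ℝ (Fin 2) | 1 < s * z 0 + t * z 1} :=
      isOpen_lt continuous_const (by fun_prop)
    exact h1.measurableSet.inter (h2.measurableSet.inter h3.measurableSet)
  -- the reflection of `T` in `R`
  set z₀ : EuclideanSpace ℝ (Fin 2) := !₂[2 - c / s, 2 - c / t] with hz₀
  set T' : Set (EuclideanSpace ℝ (Fin 2)) := (fun z => z₀ - z) ⁻¹' T with hT'
  have hvT' : volume T' = volume T :=
    (Measure.measurePreserving_sub_left volume z₀).measure_preimage hTm.nullMeasurableSet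
  have hneg : volume ((fun z => -z) ⁻¹' T) = volume T :=
    (Measure.measurePreserving_neg volume).measure_preimage hTm.nullMeasurableSet
  have hT'm : MeasurableSet T' := by
    exact (Measure.measurePreserving_sub_left volume z₀).measurable hTm
  have h0 : ∀ z : EuclideanSpace ℝ (Fin 2), (z₀ - z) 0 = 2 - c / s - z 0 := fun z => by
    simp [hz₀]
  have h1 : ∀ z : EuclideanSpace ℝ (Fin 2), (z₀ - z) 1 = 2 - c / t - z 1 := fun z => by
    simp [hz₀]
  have hTR : T ⊆ R := by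
    rintro z ⟨hz0, hz1, hz2⟩
    refine ⟨?_, hz0, ?_, hz1⟩
    · have : s * (1 - c / s) ≤ s * z 0 := by nlinarith
      exact le_of_mul_le_mul_left this hs
    · have : t * (1 - c / t) ≤ t * z 1 := by nlinarith
      exact le_of_mul_le_mul_left this ht
  have hT'R : T' ⊆ R := by
    intro z hz
    have h5 := hTR hz
    obtain ⟨h6, h7, h8, h9⟩ := h5
    rw [h0] at h6 h7
    rw [h1] at h8 h9
    refine ⟨by linarith, by linarith, by linarith, by linarith⟩
  have hdisj : Disjoint T T' := by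
    rw [Set.disjoint_left]
    rintro z ⟨-, -, hz2⟩ ⟨-, -, hz3⟩
    rw [h0, h1] at hz3
    nlinarith
  have h2T : volume T + volume T ≤ ENNReal.ofReal (c ^ 2 / (s * t)) := by
    rw [← hvR]
    calc volume T + volume T = volume T + volume T' := by rw [hvT']
      _ = volume (T ∪ T') := (measure_union hdisj hT'm).symm
      _ ≤ volume R := measure_mono (Set.union_subset hTR hT'R)
  have hQsub : Q ⊆ H ∪ (T ∪ (fun z => -z) ⁻¹' T) := by
    rintro z ⟨h3, h4, h5, h6⟩
    by_cases h : |s * z 0 + t * z 1| ≤ 1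
    · exact Or.inl ⟨abs_le.mpr ⟨h3, h4⟩, abs_le.mpr ⟨h5, h6⟩, h⟩
    · right
      rw [not_le, lt_abs] at h
      rcases h with h | h
      · exact Or.inl ⟨h4, h6, h⟩
      · refine Or.inr ⟨?_, ?_, ?_⟩
        · simpa using by linarith
        · simpa using by linarith
        · simp only [PiLp.neg_apply]
          linarith
  have h4 : (4 : ℝ≥0∞) ≤ volume H + ENNReal.ofReal (c ^ 2 / (s * t)) := by
    rw [← hvQ]
    calc volume Q ≤ volume (H ∪ (T ∪ (fun z => -z) ⁻¹' T)) := measure_mono hQsub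
      _ ≤ volume H + (volume T + volume ((fun z => -z) ⁻¹' T)) :=
          (measure_union_le _ _).trans (add_le_add le_rfl (measure_union_le _ _))
      _ = volume H + (volume T + volume T) := by rw [hneg]
      _ ≤ _ := by gcongr
  have hnn : 0 ≤ c ^ 2 / (s * t) := by positivity
  rw [ENNReal.ofReal_sub _ hnn]
  have h5 : ENNReal.ofReal 4 = 4 := by simp
  rw [h5]
  exact tsub_le_iff_right.mpr h4

/-- The area of a parallelogram, lower bound. -/
theorem area_par {s t : ℝ} (hs : 0 ≤ s) (ht : 0 ≤ t) (hst : s + t ≤ 1) :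
    ENNReal.ofReal 4 ≤
      volume {z : EuclideanSpace ℝ (Fin 2) | |z 0| ≤ 1 ∧ |z 1| ≤ 1 ∧ |s * z 0 + t * z 1| ≤ 1} := by
  have hvQ : volume {z : EuclideanSpace ℝ (Fin 2) | -1 ≤ z 0 ∧ z 0 ≤ 1 ∧ -1 ≤ z 1 ∧ z 1 ≤ 1} =
      ENNReal.ofReal 4 := by
    rw [volume_box]
    norm_num [← ENNReal.ofReal_mul]
  rw [← hvQ]
  refine measure_mono ?_
  rintro z ⟨h3, h4, h5, h6⟩
  refine ⟨abs_le.mpr ⟨h3, h4⟩, abs_le.mpr ⟨h5, h6⟩, abs_le.mpr ⟨?_, ?_⟩⟩ <;> nlinarith

end Pool.Agent.Helper35_RADO
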