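import Pool.Agent.Helper35_RADO.Hex
import Pool.Agent.Helper11_Rado.Select

/-!
# Families whose difference bodies lie in finitely many hexagons
-/

set_option autoImplicit false

open MeasureTheory Module Submodule
open scoped ENNReal Pointwise

namespace Pool.Agent.Helper35_RADO

/-- Interior points: strict inequalities. -/
theorem inner_lt {s : Set (EuclideanSpace ℝ (Fin 2))} {u : EuclideanSpace ℝ (Fin 2)}
    (hs : ∀ x ∈ s, ∀ y ∈ s, |(inner ℝ u (x - y) : ℝ)| ≤ 1) {x z : EuclideanSpace ℝ (Fin 2)}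
    (hx : x ∈ s) (hz : z ∈ interior s) : |(inner ℝ u (x - z) : ℝ)| < 1 := by
  by_cases hu : u = 0
  · rw [hu, inner_zero_left, abs_zero]
    exact one_pos
  obtain ⟨ε, hε, hball⟩ := Metric.mem_nhds_iff.mp (mem_interior_iff_mem_nhds.mp hz)
  have hun : 0 < ‖u‖ := norm_pos_iff.mpr hu
  have huu : (inner ℝ u u : ℝ) = ‖u‖ ^ 2 := real_inner_self_eq_norm_sq u
  set r : ℝ := ε / (2 * ‖u‖) with hr
  have hr0 : 0 < r := by positivity
  have hmem : ∀ t : ℝ, |t| ≤ r → z + t • u ∈ s := by
    intro t ht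
    apply hball
    rw [Metric.mem_ball, dist_eq_norm, add_sub_cancel_left, norm_smul, Real.norm_eq_abs]
    calc |t| * ‖u‖ ≤ r * ‖u‖ := by gcongr
      _ = ε / 2 := by rw [hr]; field_simp
      _ < ε := by linarith
  have hpos : 0 < r * ‖u‖ ^ 2 := by positivity
  rw [abs_lt]
  constructor
  · have h1 := hs x hx _ (hmem r (by rw [abs_of_pos hr0]))
    have h2 : x - (z + r • u) = (x - z) - r • u := by abel
    rw [h2, inner_sub_right, inner_smul_right, huu] at h1
    have := (abs_le.mp h1).1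
    linarith
  · have h1 := hs x hx _ (hmem (-r) (by rw [abs_neg, abs_of_pos hr0]))
    have h2 : x - (z + (-r) • u) = (x - z) + r • u := by
      rw [neg_smul]
      abel
    rw [h2, inner_add_right, inner_smul_right, huu] at h1
    have := (abs_le.mp h1).2
    linarith

/-- The lattice selection for the members with index in `I`. -/
theorem exists_sub {n : ℕ} (K : Fin n → Set (EuclideanSpace ℝ (Fin 2))) (I : Finset (Fin n))
    (hK : ∀ i, IsCompact (K i)) (b : Basis (Fin 2) ℝ (EuclideanSpace ℝ (Fin 2)))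
    (hne : ∀ i, (interior (K i)).Nonempty)
    (hb : ∀ i ∈ I, ∀ j ∈ I, ∀ x ∈ K i, ∀ y ∈ K j, x - y ∈ span ℤ (Set.range b) → x ≠ y →
      Disjoint (interior (K i)) (interior (K j))) :
    ∃ S : Finset (Fin n),
      (S : Set (Fin n)).Pairwise (fun i j => Disjoint (interior (K i)) (interior (K j))) ∧
      volume (⋃ i ∈ I, K i) ≤ (S.card : ℝ≥0∞) * volume (ZSpan.fundamentalDomain b) := by
  classical
  rcases isEmpty_or_nonempty (Fin n) with hn | hn
  · refine ⟨∅, by simp, ?_⟩
    simp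
  have hUc : IsCompact (⋃ i ∈ I, K i) := I.isCompact_biUnion fun i _ => hK i
  obtain ⟨X, hXU, hXd, hXv⟩ := Helper11_Rado.exists_congruent_points b (⋃ i ∈ I, K i)
    hUc.measurableSet hUc.isBounded
  have hch : ∀ x : EuclideanSpace ℝ (Fin 2), x ∈ X → ∃ i, i ∈ I ∧ x ∈ K i := fun x hx => by
    simpa using hXU hx
  choose! φ hφI hφ using hch
  have hinj : Set.InjOn φ (X : Set (EuclideanSpace ℝ (Fin 2))) := by
    intro x hx y hy hxy
    by_contra hne'
    have hd := hb (φ x) (hφI x hx) (φ y) (hφI y hy) x (hφ x hx) y (hφ y hy) (hXd x hx y hy) hne'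
    rw [hxy, disjoint_self] at hd
    exact (hne (φ y)).ne_empty hd
  refine ⟨X.image φ, ?_, ?_⟩
  · intro i hi j hj hij
    simp only [Finset.coe_image, Set.mem_image, Finset.mem_coe] at hi hj
    obtain ⟨x, hx, rfl⟩ := hi
    obtain ⟨y, hy, rfl⟩ := hj
    exact hb _ (hφI x hx) _ (hφI y hy) x (hφ x hx) y (hφ y hy) (hXd x hx y hy)
      (fun h => hij (by rw [h]))
  · rw [Finset.card_image_of_injOn hinj]
    exact hXv

/-- Families whose difference bodies lie in `m` admissible hexagons. -/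
theorem classes {n m : ℕ} (K : Fin n → Set (EuclideanSpace ℝ (Fin 2)))
    (hK : ∀ i, IsCompact (K i)) (hne : ∀ i, (interior (K i)).Nonempty)
    (u : Fin m → Fin 3 → EuclideanSpace ℝ (Fin 2)) (V : Fin m → ℝ≥0∞)
    (hV : ∀ j, Adm (u j) (V j))
    (hcls : ∀ i, ∃ j, ∀ x ∈ K i, ∀ y ∈ K i, ∀ k, |(inner ℝ (u j k) (x - y) : ℝ)| ≤ 1) :
    ∃ S : Finset (Fin n),
      (S : Set (Fin n)).Pairwise (fun i j => Disjoint (interior (K i)) (interior (K j))) ∧
      volume (⋃ i, K i) ≤ (S.card : ℝ≥0∞) * ∑ j, V j := by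
  classical
  choose c hc using hcls
  have hsub : ∀ j : Fin m, ∃ S : Finset (Fin n),
      (S : Set (Fin n)).Pairwise (fun i j => Disjoint (interior (K i)) (interior (K j))) ∧
      volume (⋃ i ∈ Finset.univ.filter (fun i => c i = j), K i) ≤ (S.card : ℝ≥0∞) * V j := by
    intro j
    obtain ⟨b, hb1, hb2⟩ := hV j
    obtain ⟨S, hS, hvS⟩ := exists_sub K (Finset.univ.filter (fun i => c i = j)) hK b hne (by
      intro i hi i' hi' x hx y hy hxy hne'
      have hi1 : c i = j := (Finset.mem_filter.mp hi).2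
      have hi2 : c i' = j := (Finset.mem_filter.mp hi').2
      rw [Set.disjoint_left]
      intro z hzi hzj
      refine hne' (sub_eq_zero.1 (hb2 (x - y) hxy fun k => ?_))
      have h1 := inner_lt (fun x hx y hy => hc i x hx y hy k) hx hzi
      have h2 := inner_lt (fun x hx y hy => hc i' x hx y hy k) hy hzj
      rw [hi1] at h1
      rw [hi2] at h2
      have h7 : x - y = (x - z) - (y - z) := by abel
      rw [h7, inner_sub_right]
      have := abs_sub (inner ℝ (u j k) (x - z) : ℝ) (inner ℝ (u j k) (y - z))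
      linarith)
    exact ⟨S, hS, hvS.trans (by gcongr)⟩
  choose S hS hvS using hsub
  rcases isEmpty_or_nonempty (Fin m) with hm | hm
  · have hn : IsEmpty (Fin n) := ⟨fun i => hm.elim (c i)⟩
    refine ⟨∅, by simp, by simp⟩
  obtain ⟨j₀, -, hj₀⟩ := Finset.exists_max_image (Finset.univ : Finset (Fin m))
    (fun j => (S j).card) Finset.univ_nonempty
  refine ⟨S j₀, hS j₀, ?_⟩
  have h1 : (⋃ i, K i) ⊆ ⋃ j : Fin m, ⋃ i ∈ Finset.univ.filter (fun i => c i = j), K i := by
    intro x hx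
    obtain ⟨i, hi⟩ := Set.mem_iUnion.mp hx
    refine Set.mem_iUnion.mpr ⟨c i, Set.mem_iUnion₂.mpr ⟨i, ?_, hi⟩⟩
    simp
  calc volume (⋃ i, K i)
      ≤ volume (⋃ j : Fin m, ⋃ i ∈ Finset.univ.filter (fun i => c i = j), K i) := measure_mono h1
    _ ≤ ∑ j, volume (⋃ i ∈ Finset.univ.filter (fun i => c i = j), K i) :=
        measure_iUnion_fintype_le _ _
    _ ≤ ∑ j, ((S j₀).card : ℝ≥0∞) * V j := by
        refine Finset.sum_le_sum fun j _ => (hvS j).trans ?_
        exact mul_le_mul' (Nat.cast_le.mpr (hj₀ j (Finset.mem_univ j))) le_rfl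
    _ = _ := by rw [Finset.mul_sum]

end Pool.Agent.Helper35_RADO
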