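import Mathlib
import Pool.Agent.Helper11_Rado.Select
import Pool.Agent.Helper11_Rado.Lattice

/-!
# Families with a common direction of small width

`result` : let `0 < w ≤ 1`, and let a finite family of compact convex plane sets of common area `a`,
perimeter `p` and diameter `d > 0`, with union of area `A`, be such that (if `w < 1`) in one common
direction `u` every member has width at most `w * d`. Then some subfamily with pairwise disjoint
interiors covers area at least `a / (2 w √(4 - w ^ 2) d ^ 2) * A`, and if `w ≤ 0.8729`, it covers at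
least `a / (π d ^ 2) * A`, the bound asked for in Q1. For `w = 1` there is no hypothesis on the
widths and the bound is `a / (2 √3 d ^ 2) * A`.

Proof: Rado's averaging with the lattice spanned by `2 w d u` and `w d u + √(4 - w ^ 2) d u'`,
`u'` orthogonal to `u`: its points are at distance at least `2 d`, or differ by at least `2 w d` in
the direction `u`.
-/

set_option autoImplicit false

open MeasureTheory Module Submodule
open scoped ENNReal Pointwise

namespace Pool.Agent.Results.MP_b7794d_co.CommonWidth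

/-- strict width inequality for interior points -/
theorem inner_lt_of_mem_interior {s : Set (EuclideanSpace ℝ (Fin 2))}
    {u : EuclideanSpace ℝ (Fin 2)} (hu : ‖u‖ = 1) {c : ℝ}
    (hs : ∀ x ∈ s, ∀ y ∈ s, inner ℝ u (x - y) ≤ c) {x z : EuclideanSpace ℝ (Fin 2)} (hx : x ∈ s)
    (hz : z ∈ interior s) : |(inner ℝ u (x - z) : ℝ)| < c := by
  obtain ⟨ε, hε, hball⟩ := Metric.mem_nhds_iff.mp (mem_interior_iff_mem_nhds.mp hz)
  have huu : (inner ℝ u u : ℝ) = 1 := by rw [real_inner_self_eq_norm_sq, hu]; norm_num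
  have hmem : ∀ t : ℝ, |t| < ε → z + t • u ∈ s := by
    intro t ht
    apply hball
    rw [Metric.mem_ball, dist_eq_norm]
    simpa [norm_smul, hu] using ht
  rw [abs_lt]
  constructor
  · have h1 := hs _ (hmem (ε / 2) (by rw [abs_of_pos (by positivity)]; linarith)) x hx
    have h2 : z + (ε / 2) • u - x = (ε / 2) • u - (x - z) := by abel
    rw [h2, inner_sub_right, inner_smul_right, huu] at h1
    linarith
  · have h1 := hs x hx _ (hmem (-(ε / 2)) (by rw [abs_neg, abs_of_pos (by positivity)]; linarith))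
    have h2 : x - (z + (-(ε / 2)) • u) = (ε / 2) • u + (x - z) := by
      rw [neg_smul]
      abel
    rw [h2, inner_add_right, inner_smul_right, huu] at h1
    linarith

/-- the bound for a common direction of width at most `w * d` -/
theorem common_width (n : ℕ) (K : Fin n → Set (EuclideanSpace ℝ (Fin 2))) (a p d : ℝ)
    (hd : 0 < d)
    (hK : ∀ i, Convex ℝ (K i) ∧ IsCompact (K i) ∧
        (volume (K i)).toReal = a ∧
        (MeasureTheory.Measure.hausdorffMeasure 1 (frontier (K i))).toReal = p ∧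
        Metric.diam (K i) = d)
    (u : EuclideanSpace ℝ (Fin 2)) (w : ℝ) (hu : ‖u‖ = 1) (hw0 : 0 < w) (hw1 : w ≤ 1)
    (hw : ∀ i, ∀ x ∈ K i, ∀ y ∈ K i, inner ℝ u (x - y) ≤ w * d) :
    ∃ S : Finset (Fin n),
      (S : Set (Fin n)).Pairwise
        (fun i j => Disjoint (interior (K i)) (interior (K j))) ∧
      a / (2 * w * √(4 - w ^ 2) * d ^ 2) * (volume (⋃ i, K i)).toReal ≤
        (volume (⋃ i ∈ S, K i)).toReal := by
  have h4 : 0 < 4 - w ^ 2 := by nlinarith
  set s : ℝ := √(4 - w ^ 2) with hs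
  have hs0 : 0 < s := Real.sqrt_pos.mpr h4
  have hss : s * s = 4 - w ^ 2 := Real.mul_self_sqrt h4.le
  rcases isEmpty_or_nonempty (Fin n) with hn | hn
  · refine ⟨∅, by simp, by simp⟩
  obtain ⟨i₀⟩ := hn
  have ha0 : 0 ≤ a := by rw [← (hK i₀).2.2.1]; exact ENNReal.toReal_nonneg
  rcases ha0.eq_or_lt with ha | ha
  · refine ⟨∅, by simp, by simp [← ha]⟩
  have hu2 : u 0 * u 0 + u 1 * u 1 = 1 := by
    have h5 := EuclideanSpace.norm_sq_eq u
    rw [hu, Fin.sum_univ_two] at h5
    simp only [Real.norm_eq_abs, sq_abs] at h5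
    nlinarith
  -- the lattice
  have hdet : 2 * w * d * u 0 * (w * d * u 1 + d * s * u 0) -
      2 * w * d * u 1 * (w * d * u 0 - d * s * u 1) = 2 * w * s * d ^ 2 := by
    linear_combination (2 * w * s * d ^ 2) * hu2
  have hpos : 0 < 2 * w * s * d ^ 2 := by positivity
  obtain ⟨b, hbv, hbs⟩ := Helper11_Rado.exists_basis (2 * w * d * u 0) (2 * w * d * u 1)
    (w * d * u 0 - d * s * u 1) (w * d * u 1 + d * s * u 0) (by rw [hdet]; exact hpos.ne')
  have hvol : volume (ZSpan.fundamentalDomain b) = ENNReal.ofReal (2 * w * s * d ^ 2) := by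
    rw [hbv, hdet, abs_of_pos hpos]
  have hmin : ∀ v ∈ span ℤ (Set.range b), ‖v‖ < 2 * d → |(inner ℝ u v : ℝ)| < 2 * (w * d) →
      v = 0 := by
    intro v hv hv1 hv2
    obtain ⟨m, k, h0, h1⟩ := hbs v hv
    have hin : (inner ℝ u v : ℝ) = w * d * (2 * m + k) := by
      rw [PiLp.inner_apply, Fin.sum_univ_two, h0, h1]
      simp only [RCLike.inner_apply, conj_trivial]
      linear_combination (w * d * (2 * m + k)) * hu2
    have hsq : ‖v‖ ^ 2 = d ^ 2 * (w ^ 2 * (2 * m + k) ^ 2 + (4 - w ^ 2) * k ^ 2) := by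
      rw [EuclideanSpace.norm_sq_eq, Fin.sum_univ_two, h0, h1]
      simp only [Real.norm_eq_abs, sq_abs]
      linear_combination (d ^ 2 * (w ^ 2 * (2 * m + k) ^ 2 + s * s * k ^ 2)) * hu2 +
        (d ^ 2 * k ^ 2) * hss
    have hk1 : |(2 * m + k : ℝ)| < 2 := by
      rw [hin, abs_mul, abs_of_pos (by positivity : 0 < w * d)] at hv2
      have h6 : 0 < w * d := by positivity
      nlinarith
    have hk2 : |2 * m + k| < 2 := by exact_mod_cast hk1
    have hk3 : w ^ 2 * (2 * m + k : ℝ) ^ 2 + (4 - w ^ 2) * (k : ℝ) ^ 2 < 4 := by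
      have h7 : ‖v‖ ^ 2 < (2 * d) ^ 2 := by
        have := norm_nonneg v
        nlinarith
      rw [hsq] at h7
      have h8 : 0 < d ^ 2 := by positivity
      nlinarith
    have hk4 : k ^ 2 < 4 := by
      by_contra hcon
      push Not at hcon
      have h9 : (4 : ℝ) ≤ (k : ℝ) ^ 2 := by exact_mod_cast hcon
      nlinarith [mul_nonneg (sq_nonneg w) (sq_nonneg (2 * m + k : ℝ))]
    have hk5 : k < 2 ∧ -2 < k := by constructor <;> nlinarith
    obtain ⟨h10, h11⟩ := abs_lt.1 hk2
    obtain ⟨h12, h13⟩ := hk5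
    have hk6 : k = 0 := by
      by_contra hk
      have h14 : k ^ 2 = 1 := by
        have : k = 1 ∨ k = -1 := by omega
        rcases this with rfl | rfl <;> norm_num
      have h15 : (2 * m + k) ^ 2 = 1 := by
        have : 2 * m + k = 1 ∨ 2 * m + k = -1 := by omega
        rcases this with h | h <;> rw [h] <;> norm_num
      have h16 : (k : ℝ) ^ 2 = 1 := by exact_mod_cast h14
      have h17 : (2 * m + k : ℝ) ^ 2 = 1 := by exact_mod_cast h15
      rw [h16, h17] at hk3
      linarith
    have hm : m = 0 := by omega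
    ext i
    fin_cases i
    · simpa [hk6, hm] using h0
    · simpa [hk6, hm] using h1
  have hint : ∀ i, (interior (K i)).Nonempty := fun i => by
    refine Helper11_Rado.interior_nonempty_of_pos (hK i).1 fun h => ?_
    have := (hK i).2.2.1
    rw [h] at this
    simp at this
    exact ha.ne this
  obtain ⟨S, hS, hvS⟩ := Helper11_Rado.exists_subfamily K (fun i => (hK i).2.1) b hint (by
    intro i j x hx y hy hxy hne
    rw [Set.disjoint_left]
    intro z hzi hzj
    have h1 := Helper11_Rado.dist_lt_diam_of_mem_interior (hK i).2.1.isBounded hx hzi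
    have h2 := Helper11_Rado.dist_lt_diam_of_mem_interior (hK j).2.1.isBounded hy hzj
    rw [(hK i).2.2.2.2] at h1
    rw [(hK j).2.2.2.2] at h2
    have h5 := inner_lt_of_mem_interior hu (hw i) hx hzi
    have h6 := inner_lt_of_mem_interior hu (hw j) hy hzj
    refine hne (sub_eq_zero.1 (hmin (x - y) hxy ?_ ?_))
    · rw [← dist_eq_norm]
      have := dist_triangle_right x y z
      linarith
    · have h7 : x - y = (x - z) - (y - z) := by abel
      rw [h7, inner_sub_right]
      have := abs_sub (inner ℝ u (x - z) : ℝ) (inner ℝ u (y - z))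
      linarith)
  refine ⟨S, hS, ?_⟩
  have hA : (volume (⋃ i, K i)).toReal ≤ S.card * (2 * w * s * d ^ 2) := by
    rw [hvol] at hvS
    have := ENNReal.toReal_mono (by finiteness) hvS
    rwa [ENNReal.toReal_mul, ENNReal.toReal_natCast, ENNReal.toReal_ofReal (by positivity)] at this
  have hB := Helper11_Rado.volume_biUnion_of_disjoint_interior K a
    (fun i => ⟨(hK i).1, (hK i).2.1, (hK i).2.2.1⟩) S hS
  calc a / (2 * w * s * d ^ 2) * (volume (⋃ i, K i)).toReal
      ≤ a / (2 * w * s * d ^ 2) * (S.card * (2 * w * s * d ^ 2)) := by gcongr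
    _ = S.card * a := by field_simp
    _ ≤ _ := hB

/-- Let `0 < w ≤ 1`, and let a finite family of compact convex plane sets of common area `a`,
perimeter `p` and diameter `d > 0` be such that, in case `w < 1`, all the members have width at most
`w * d` in one common direction `u`. Then some subfamily with pairwise disjoint interiors covers at
least the fraction `a / (2 w √(4 - w ^ 2) d ^ 2)` of the area of the union, and at least the fraction
`a / (π d ^ 2)` if `w ≤ 0.8729`. -/
theorem result :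
    ∀ (n : ℕ) (K : Fin n → Set (EuclideanSpace ℝ (Fin 2))) (a p d w : ℝ)
      (u : EuclideanSpace ℝ (Fin 2)),
      0 < d → 0 < w → w ≤ 1 → ‖u‖ = 1 →
      (∀ i, Convex ℝ (K i) ∧ IsCompact (K i) ∧
        (volume (K i)).toReal = a ∧
        (MeasureTheory.Measure.hausdorffMeasure 1 (frontier (K i))).toReal = p ∧
        Metric.diam (K i) = d) →
      (w < 1 → ∀ i, ∀ x ∈ K i, ∀ y ∈ K i, inner ℝ u (x - y) ≤ w * d) →
      ∃ S : Finset (Fin n),
        (S : Set (Fin n)).Pairwise
          (fun i j => Disjoint (interior (K i)) (interior (K j))) ∧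
        a / (2 * w * √(4 - w ^ 2) * d ^ 2) * (volume (⋃ i, K i)).toReal ≤
          (volume (⋃ i ∈ S, K i)).toReal ∧
        (w ≤ 0.8729 → a / (Real.pi * d ^ 2) * (volume (⋃ i, K i)).toReal ≤
          (volume (⋃ i ∈ S, K i)).toReal) := by
  intro n K a p d w u hd hw0 hw1 hu hK hw
  have hw' : ∀ i, ∀ x ∈ K i, ∀ y ∈ K i, inner ℝ u (x - y) ≤ w * d := by
    rcases hw1.lt_or_eq with h | rfl
    · exact hw h
    · intro i x hx y hy
      have h1 := real_inner_le_norm u (x - y)
      have h2 := Metric.dist_le_diam_of_mem (hK i).2.1.isBounded hx hy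
      rw [dist_eq_norm, (hK i).2.2.2.2] at h2
      rw [hu] at h1
      linarith
  obtain ⟨S, hS, h⟩ := common_width n K a p d hd hK u w hu hw0 hw1 hw'
  refine ⟨S, hS, h, fun hw2 => le_trans ?_ h⟩
  have h4 : 0 < 4 - w ^ 2 := by nlinarith
  have hs0 : 0 < √(4 - w ^ 2) := Real.sqrt_pos.mpr h4
  have hss : √(4 - w ^ 2) * √(4 - w ^ 2) = 4 - w ^ 2 := Real.mul_self_sqrt h4.le
  have hpi := Real.pi_gt_d4
  have h5 : 2 * w * √(4 - w ^ 2) ≤ Real.pi := by
    have h6 : w ^ 2 ≤ 0.8729 ^ 2 := by gcongr
    have h7 : (2 * w * √(4 - w ^ 2)) ^ 2 ≤ 3.1415 ^ 2 := by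
      have h8 : (2 * w * √(4 - w ^ 2)) ^ 2 = 4 * w ^ 2 * (4 - w ^ 2) := by
        rw [mul_pow, sq (√(4 - w ^ 2)), hss]
        ring
      rw [h8]
      nlinarith
    have h9 : 2 * w * √(4 - w ^ 2) ≤ 3.1415 := by
      have h10 : 0 ≤ 2 * w * √(4 - w ^ 2) := by positivity
      nlinarith
    linarith
  have ha0 : 0 ≤ a ∨ n = 0 := by
    rcases Nat.eq_zero_or_pos n with h | h
    · exact Or.inr h
    · left
      rw [← (hK ⟨0, h⟩).2.2.1]
      exact ENNReal.toReal_nonneg
  rcases ha0 with ha0 | rfl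
  · gcongr
  · simp

end Pool.Agent.Results.MP_b7794d_co.CommonWidth
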