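import Pool.Agent.Helper35_RADO.Area
import Pool.Agent.Helper11_Rado.Lattice

/-!
# A lattice for a centrally symmetric hexagon
-/

set_option autoImplicit false

open MeasureTheory Module Submodule
open scoped ENNReal

namespace Pool.Agent.Helper35_RADO

/-- The determinant of two vectors. -/
def W (u v : EuclideanSpace ℝ (Fin 2)) : ℝ := u 0 * v 1 - u 1 * v 0

theorem inner_two (u v : EuclideanSpace ℝ (Fin 2)) :
    (inner ℝ u v : ℝ) = u 0 * v 0 + u 1 * v 1 := by
  rw [PiLp.inner_apply, Fin.sum_univ_two]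
  simp only [RCLike.inner_apply, conj_trivial]
  ring

/-- The area of the preimage of a set under a linear map with rows `p`, `q`. -/
theorem volume_pre (p q : EuclideanSpace ℝ (Fin 2)) (h : W p q ≠ 0)
    (P : ℝ → ℝ → Prop) :
    volume {x : EuclideanSpace ℝ (Fin 2) | P (inner ℝ p x) (inner ℝ q x)} =
      ENNReal.ofReal |(W p q)⁻¹| * volume {z : EuclideanSpace ℝ (Fin 2) | P (z 0) (z 1)} := by
  set b₀ : Basis (Fin 2) ℝ (EuclideanSpace ℝ (Fin 2)) :=
    (EuclideanSpace.basisFun (Fin 2) ℝ).toBasis with hb₀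
  set M : Matrix (Fin 2) (Fin 2) ℝ := !![p 0, p 1; q 0, q 1] with hM
  set L := Matrix.toLin b₀ b₀ M with hL
  have hdet : LinearMap.det L = W p q := by
    rw [hL, LinearMap.det_toLin, hM, Matrix.det_fin_two, W]
    simp
  have h0 : ∀ x, (L x) 0 = inner ℝ p x := by
    intro x
    rw [hL, Matrix.toLin_apply, inner_two]
    simp [hb₀, hM, Matrix.mulVec, dotProduct, Fin.sum_univ_two]
  have h1 : ∀ x, (L x) 1 = inner ℝ q x := by
    intro x
    rw [hL, Matrix.toLin_apply, inner_two]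
    simp [hb₀, hM, Matrix.mulVec, dotProduct, Fin.sum_univ_two]
  have h2 : {x : EuclideanSpace ℝ (Fin 2) | P (inner ℝ p x) (inner ℝ q x)} =
      L ⁻¹' {z : EuclideanSpace ℝ (Fin 2) | P (z 0) (z 1)} := by
    ext x
    simp only [Set.mem_preimage, Set.mem_ofPred_eq, h0, h1]
  rw [h2, Measure.addHaar_preimage_linearMap _ (by rw [hdet]; exact h), hdet]

theorem int_par {m n : ℤ} (h1 : |2 * (m : ℝ)| < 2) (h2 : |2 * (n : ℝ)| < 2) : m = 0 ∧ n = 0 := by
  obtain ⟨h3, h4⟩ := abs_lt.mp h1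
  obtain ⟨h5, h6⟩ := abs_lt.mp h2
  have h14 : (m : ℝ) < 1 := by linarith
  have h15 : (-1 : ℝ) < m := by linarith
  have h16 : (n : ℝ) < 1 := by linarith
  have h17 : (-1 : ℝ) < n := by linarith
  have h18 : m < 1 := by exact_mod_cast h14
  have h19 : -1 < m := by exact_mod_cast h15
  have h20 : n < 1 := by exact_mod_cast h16
  have h21 : -1 < n := by exact_mod_cast h17
  omega

theorem int_hex {m n : ℤ} {k1 k2 A B : ℝ} (hk1 : 0 ≤ k1) (hk2 : 0 ≤ k2) (hA : 0 ≤ A) (hB : 0 ≤ B)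
    (hAB : A + B = 2) (h1 : |2 * (m : ℝ) - k2 * n| < 2) (h2 : |2 * (n : ℝ) - k1 * m| < 2)
    (h3 : |A * m + B * n| < 2) : m = 0 ∧ n = 0 := by
  obtain ⟨h1a, h1b⟩ := abs_lt.mp h1
  obtain ⟨h2a, h2b⟩ := abs_lt.mp h2
  obtain ⟨h3a, h3b⟩ := abs_lt.mp h3
  rcases lt_trichotomy m 0 with hm | hm | hm
  · have hm' : (m : ℝ) ≤ -1 := by exact_mod_cast (by omega : m ≤ -1)
    rcases lt_or_ge n 0 with hn | hn
    · have hn' : (n : ℝ) ≤ -1 := by exact_mod_cast (by omega : n ≤ -1)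
      have e1 : A * m ≤ A * -1 := mul_le_mul_of_nonneg_left hm' hA
      have e2 : B * n ≤ B * -1 := mul_le_mul_of_nonneg_left hn' hB
      linarith
    · have hn' : (0 : ℝ) ≤ n := by exact_mod_cast hn
      have e1 : 0 ≤ k2 * n := mul_nonneg hk2 hn'
      linarith
  · subst hm
    rcases lt_trichotomy n 0 with hn | hn | hn
    · have hn' : (n : ℝ) ≤ -1 := by exact_mod_cast (by omega : n ≤ -1)
      simp at h2a
      linarith
    · exact ⟨rfl, hn⟩
    · have hn' : (1 : ℝ) ≤ n := by exact_mod_cast (by omega : 1 ≤ n)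
      simp at h2b
      linarith
  · have hm' : (1 : ℝ) ≤ m := by exact_mod_cast (by omega : 1 ≤ m)
    rcases lt_or_ge 0 n with hn | hn
    · have hn' : (1 : ℝ) ≤ n := by exact_mod_cast (by omega : 1 ≤ n)
      have e1 : A * 1 ≤ A * m := mul_le_mul_of_nonneg_left hm' hA
      have e2 : B * 1 ≤ B * n := mul_le_mul_of_nonneg_left hn' hB
      linarith
    · have hn' : (n : ℝ) ≤ 0 := by exact_mod_cast hn
      have e1 : k2 * n ≤ 0 := mul_nonpos_of_nonneg_of_nonpos hk2 hn'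
      linarith

/-- The lattice of the hexagon `|⟪p, x⟫| ≤ 1, |⟪q, x⟫| ≤ 1, |s ⟪p, x⟫ + t ⟪q, x⟫| ≤ 1`. -/
theorem core (p q : EuclideanSpace ℝ (Fin 2)) (s t : ℝ) (h : W p q ≠ 0) (hs : 0 ≤ s)
    (ht : 0 ≤ t) (hs1 : s ≤ 1) (ht1 : t ≤ 1) :
    ∃ b : Basis (Fin 2) ℝ (EuclideanSpace ℝ (Fin 2)),
      volume (ZSpan.fundamentalDomain b) ≤ volume {x : EuclideanSpace ℝ (Fin 2) |
        |(inner ℝ p x : ℝ)| ≤ 1 ∧ |(inner ℝ q x : ℝ)| ≤ 1 ∧
          |s * (inner ℝ p x : ℝ) + t * inner ℝ q x| ≤ 1} ∧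
      ∀ v ∈ span ℤ (Set.range b), |(inner ℝ p v : ℝ)| < 2 → |(inner ℝ q v : ℝ)| < 2 →
          |s * (inner ℝ p v : ℝ) + t * inner ℝ q v| < 2 → v = 0 := by
  -- the numbers
  obtain ⟨c, k1, k2, hk, hc1, hc2, hk0, hkk, hcases⟩ : ∃ c k1 k2 : ℝ, 0 < 4 - k1 * k2 ∧
      t * k1 = c ∧ s * k2 = c ∧ 0 ≤ k1 ∧ 0 ≤ k2 ∧
      ((k1 = 0 ∧ k2 = 0 ∧ s + t ≤ 1) ∨ (c = s + t - 1 ∧ 0 < c ∧ 0 < s ∧ 0 < t ∧ k1 = c / t ∧
        k2 = c / s)) := by
    rcases le_or_gt (s + t) 1 with hst | hst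
    · exact ⟨0, 0, 0, by norm_num, by ring, by ring, le_rfl, le_rfl, Or.inl ⟨rfl, rfl, hst⟩⟩
    · have hs0 : 0 < s := by linarith
      have ht0 : 0 < t := by linarith
      have hc0 : 0 < s + t - 1 := by linarith
      refine ⟨s + t - 1, (s + t - 1) / t, (s + t - 1) / s, ?_, by field_simp, by field_simp,
        by positivity, by positivity, Or.inr ⟨rfl, hc0, hs0, ht0, rfl, rfl⟩⟩
      have h1 : (s + t - 1) / t ≤ 1 := by rw [div_le_one ht0]; linarith
      have h2 : (s + t - 1) / s ≤ 1 := by rw [div_le_one hs0]; linarith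
      have h3 : 0 ≤ (s + t - 1) / t := by positivity
      have h4 : 0 ≤ (s + t - 1) / s := by positivity
      nlinarith
  set δ := W p q with hδ
  have hδ' : p 0 * q 1 - p 1 * q 0 = δ := rfl
  have hdet : ((2 * q 1 + k1 * p 1) / δ) * ((k2 * q 0 + 2 * p 0) / δ) -
      ((-2 * q 0 - k1 * p 0) / δ) * ((-k2 * q 1 - 2 * p 1) / δ) = (4 - k1 * k2) / δ := by
    field_simp
    rw [← hδ']
    ring
  obtain ⟨b, hbv, hbs⟩ := Helper11_Rado.exists_basis ((2 * q 1 + k1 * p 1) / δ)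
    ((-2 * q 0 - k1 * p 0) / δ) ((-k2 * q 1 - 2 * p 1) / δ) ((k2 * q 0 + 2 * p 0) / δ)
    (by rw [hdet]; positivity)
  refine ⟨b, ?_, ?_⟩
  · rw [hbv, hdet, volume_pre p q h (fun x y => |x| ≤ 1 ∧ |y| ≤ 1 ∧ |s * x + t * y| ≤ 1)]
    have h4 : |(4 - k1 * k2) / δ| = |δ⁻¹| * (4 - k1 * k2) := by
      rw [div_eq_mul_inv, abs_mul, abs_of_pos hk, mul_comm]
    rw [h4, ENNReal.ofReal_mul (abs_nonneg _)]
    refine mul_le_mul_right ?_ _
    rcases hcases with ⟨h5, h6, h7⟩ | ⟨h5, h6, h7, h8, h9, h10⟩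
    · rw [h5, h6]
      simpa using area_par hs ht h7
    · have h11 : 4 - k1 * k2 = 4 - c ^ 2 / (s * t) := by
        rw [h9, h10]
        field_simp
      rw [h11]
      exact area_hex h7 h8 hs1 ht1 h5 h6
  · intro v hv hv1 hv2 hv3
    obtain ⟨m, n, h5, h6⟩ := hbs v hv
    have h7 : (inner ℝ p v : ℝ) = 2 * m - k2 * n := by
      rw [inner_two, h5, h6]
      field_simp
      rw [← hδ']
      ring
    have h8 : (inner ℝ q v : ℝ) = 2 * n - k1 * m := by
      rw [inner_two, h5, h6]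
      field_simp
      rw [← hδ']
      ring
    rw [h7] at hv1
    rw [h8] at hv2
    rw [h7, h8] at hv3
    have h9 : s * (2 * m - k2 * n) + t * (2 * n - k1 * m) = (2 * s - c) * m + (2 * t - c) * n := by
      linear_combination (-(n : ℝ)) * hc2 - (m : ℝ) * hc1
    rw [h9] at hv3
    have hmn : m = 0 ∧ n = 0 := by
      rcases hcases with ⟨h10, h11, -⟩ | ⟨h10, h11, h12, h13, -, -⟩
      · refine int_par ?_ ?_
        · rw [h11] at hv1
          simpa using hv1
        · rw [h10] at hv2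
          simpa using hv2
      · exact int_hex hk0 hkk (by rw [h10]; linarith) (by rw [h10]; linarith)
          (by rw [h10]; ring) hv1 hv2 hv3
    ext i
    fin_cases i
    · simpa [hmn.1, hmn.2] using h5
    · simpa [hmn.1, hmn.2] using h6

/-- The same for three vectors, the first two of which have the largest determinant. -/
theorem core_max (p q r : EuclideanSpace ℝ (Fin 2)) (h : W p q ≠ 0) (h1 : |W r q| ≤ |W p q|)
    (h2 : |W p r| ≤ |W p q|) :
    ∃ b : Basis (Fin 2) ℝ (EuclideanSpace ℝ (Fin 2)),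
      volume (ZSpan.fundamentalDomain b) ≤ volume {x : EuclideanSpace ℝ (Fin 2) |
        |(inner ℝ p x : ℝ)| ≤ 1 ∧ |(inner ℝ q x : ℝ)| ≤ 1 ∧ |(inner ℝ r x : ℝ)| ≤ 1} ∧
      ∀ v ∈ span ℤ (Set.range b), |(inner ℝ p v : ℝ)| < 2 → |(inner ℝ q v : ℝ)| < 2 →
          |(inner ℝ r v : ℝ)| < 2 → v = 0 := by
  set s := W r q / W p q with hs
  set t := W p r / W p q with ht
  have hs1 : |s| ≤ 1 := by
    rw [hs, abs_div]
    exact (div_le_one (abs_pos.mpr h)).mpr h1
  have ht1 : |t| ≤ 1 := by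
    rw [ht, abs_div]
    exact (div_le_one (abs_pos.mpr h)).mpr h2
  have hr : ∀ x, (inner ℝ r x : ℝ) = s * inner ℝ p x + t * inner ℝ q x := by
    intro x
    have h3 : s * W p q = W r q := div_mul_cancel₀ _ h
    have h4 : t * W p q = W p r := div_mul_cancel₀ _ h
    refine mul_left_cancel₀ h ?_
    have h5 : W p q * (inner ℝ r x : ℝ) = W r q * inner ℝ p x + W p r * inner ℝ q x := by
      rw [inner_two, inner_two, inner_two]
      simp only [W]
      ring
    rw [h5]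
    linear_combination (-(inner ℝ p x : ℝ)) * h3 - (inner ℝ q x : ℝ) * h4
  obtain ⟨p', hp1, hp2, hp3⟩ : ∃ p' : EuclideanSpace ℝ (Fin 2),
      (∀ x, |(inner ℝ p' x : ℝ)| = |(inner ℝ p x : ℝ)|) ∧
      (∀ x, |s| * (inner ℝ p' x : ℝ) = s * inner ℝ p x) ∧ ∀ y, |W p' y| = |W p y| := by
    rcases le_total 0 s with h3 | h3
    · exact ⟨p, fun x => rfl, fun x => by rw [abs_of_nonneg h3], fun y => rfl⟩
    · refine ⟨-p, fun x => by rw [inner_neg_left, abs_neg],
        fun x => by rw [inner_neg_left, abs_of_nonpos h3]; ring, fun y => ?_⟩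
      rw [← abs_neg]
      congr 1
      simp only [W, PiLp.neg_apply]
      ring
  obtain ⟨q', hq1, hq2, hq3⟩ : ∃ q' : EuclideanSpace ℝ (Fin 2),
      (∀ x, |(inner ℝ q' x : ℝ)| = |(inner ℝ q x : ℝ)|) ∧
      (∀ x, |t| * (inner ℝ q' x : ℝ) = t * inner ℝ q x) ∧ ∀ y, |W y q'| = |W y q| := by
    rcases le_total 0 t with h3 | h3
    · exact ⟨q, fun x => rfl, fun x => by rw [abs_of_nonneg h3], fun y => rfl⟩
    · refine ⟨-q, fun x => by rw [inner_neg_left, abs_neg],
        fun x => by rw [inner_neg_left, abs_of_nonpos h3]; ring, fun y => ?_⟩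
      rw [← abs_neg]
      congr 1
      simp only [W, PiLp.neg_apply]
      ring
  have h' : W p' q' ≠ 0 := by
    rw [← abs_pos, hp3, hq3, abs_pos]
    exact h
  obtain ⟨b, hb1, hb2⟩ := core p' q' |s| |t| h' (abs_nonneg _) (abs_nonneg _) hs1 ht1
  simp only [hp1, hq1, hp2, hq2, ← hr] at hb1 hb2
  exact ⟨b, hb1, hb2⟩

/-- Hexagons (or parallelograms) centred at the origin. -/
def HX (u : Fin 3 → EuclideanSpace ℝ (Fin 2)) : Set (EuclideanSpace ℝ (Fin 2)) :=
  {x | ∀ k, |(inner ℝ (u k) x : ℝ)| ≤ 1}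

/-- There is a lattice of covolume at most `V` without nonzero points in the interior of twice the
hexagon of `u`. -/
def Adm (u : Fin 3 → EuclideanSpace ℝ (Fin 2)) (V : ℝ≥0∞) : Prop :=
  ∃ b : Basis (Fin 2) ℝ (EuclideanSpace ℝ (Fin 2)), volume (ZSpan.fundamentalDomain b) ≤ V ∧
    ∀ v ∈ span ℤ (Set.range b), (∀ k, |(inner ℝ (u k) v : ℝ)| < 2) → v = 0

theorem W_swap (u v : EuclideanSpace ℝ (Fin 2)) : |W u v| = |W v u| := by
  rw [← abs_neg]
  congr 1
  simp only [W]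
  ring

theorem adm_hex (u : Fin 3 → EuclideanSpace ℝ (Fin 2)) (hu : Bornology.IsBounded (HX u)) :
    Adm u (volume (HX u)) := by
  -- not all determinants vanish
  have hne : ∃ i j, W (u i) (u j) ≠ 0 := by
    by_contra hcon
    push Not at hcon
    obtain ⟨x, hx0, hx⟩ : ∃ x : EuclideanSpace ℝ (Fin 2), x ≠ 0 ∧ ∀ k, (inner ℝ (u k) x : ℝ) = 0 := by
      by_cases h0 : ∀ k, u k = 0
      · obtain ⟨x, hx⟩ := exists_ne (0 : EuclideanSpace ℝ (Fin 2))
        exact ⟨x, hx, fun k => by rw [h0 k, inner_zero_left]⟩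
      · push Not at h0
        obtain ⟨k, hk⟩ := h0
        refine ⟨!₂[-(u k 1), u k 0], ?_, ?_⟩
        · intro h1
          apply hk
          have h2 := congrArg (fun z : EuclideanSpace ℝ (Fin 2) => z 0) h1
          have h3 := congrArg (fun z : EuclideanSpace ℝ (Fin 2) => z 1) h1
          simp at h2 h3
          ext i
          fin_cases i
          · simpa using h3
          · simpa using h2
        · intro j
          rw [inner_two]
          have := hcon j k
          simp only [W] at this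
          simp
          linarith
    obtain ⟨C, hC⟩ := isBounded_iff_forall_norm_le.mp hu
    have hC' : ∀ n : ℕ, n * ‖x‖ ≤ C := by
      intro n
      have h1 : (n : ℝ) • x ∈ HX u := by
        intro k
        rw [inner_smul_right, hx k, mul_zero, abs_zero]
        norm_num
      have := hC _ h1
      rwa [norm_smul, Real.norm_natCast] at this
    have hx1 : 0 < ‖x‖ := norm_pos_iff.mpr hx0
    obtain ⟨n, hn⟩ := exists_nat_gt (C / ‖x‖)
    rw [div_lt_iff₀ hx1] at hn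
    exact absurd (hC' n) (not_le.mpr hn)
  -- the case of given indices
  have key : ∀ i j k : Fin 3, W (u i) (u j) ≠ 0 → |W (u k) (u j)| ≤ |W (u i) (u j)| →
      |W (u i) (u k)| ≤ |W (u i) (u j)| → (∀ P : Fin 3 → Prop, (∀ l, P l) ↔ P i ∧ P j ∧ P k) →
      Adm u (volume (HX u)) := by
    intro i j k h1 h2 h3 h4
    obtain ⟨b, hb1, hb2⟩ := core_max (u i) (u j) (u k) h1 h2 h3
    refine ⟨b, ?_, ?_⟩
    · unfold HX
      have h5 : {x : EuclideanSpace ℝ (Fin 2) | ∀ k, |(inner ℝ (u k) x : ℝ)| ≤ 1} =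
          {x : EuclideanSpace ℝ (Fin 2) | |(inner ℝ (u i) x : ℝ)| ≤ 1 ∧
            |(inner ℝ (u j) x : ℝ)| ≤ 1 ∧ |(inner ℝ (u k) x : ℝ)| ≤ 1} := by
        ext x
        exact h4 (fun l => |(inner ℝ (u l) x : ℝ)| ≤ 1)
      rw [h5]
      exact hb1
    · intro v hv hv1
      exact hb2 v hv (hv1 i) (hv1 j) (hv1 k)
  have hself : ∀ x, W x x = 0 := fun x => by simp [W]; ring
  have hpos : 0 < |W (u 0) (u 1)| ∨ 0 < |W (u 0) (u 2)| ∨ 0 < |W (u 1) (u 2)| := by
    obtain ⟨i, j, hij⟩ := hne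
    have := abs_pos.mpr hij
    fin_cases i <;> fin_cases j <;> simp only [Fin.zero_eta, Fin.mk_one, Fin.reduceFinMk] at this
    · rw [hself, abs_zero] at this; exact absurd this (lt_irrefl _)
    · exact Or.inl this
    · exact Or.inr (Or.inl this)
    · rw [W_swap] at this; exact Or.inl this
    · rw [hself, abs_zero] at this; exact absurd this (lt_irrefl _)
    · exact Or.inr (Or.inr this)
    · rw [W_swap] at this; exact Or.inr (Or.inl this)
    · rw [W_swap] at this; exact Or.inr (Or.inr this)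
    · rw [hself, abs_zero] at this; exact absurd this (lt_irrefl _)
  have hP1 : ∀ P : Fin 3 → Prop, (∀ l, P l) ↔ P 0 ∧ P 1 ∧ P 2 := fun P => by
    simp [Fin.forall_fin_succ]
  rcases le_total |W (u 0) (u 2)| |W (u 0) (u 1)| with h1 | h1
  · rcases le_total |W (u 1) (u 2)| |W (u 0) (u 1)| with h2 | h2
    · have h3 : W (u 0) (u 1) ≠ 0 := by
        rw [← abs_pos]
        rcases hpos with h | h | h <;> linarith
      exact key 0 1 2 h3 (by rw [W_swap (u 2)]; exact h2) h1 hP1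
    · have h3 : W (u 1) (u 2) ≠ 0 := by
        rw [← abs_pos]
        rcases hpos with h | h | h <;> linarith
      refine key 1 2 0 h3 (by linarith) (by rw [W_swap (u 1)]; exact h2) fun P => ?_
      rw [hP1]
      tauto
  · rcases le_total |W (u 1) (u 2)| |W (u 0) (u 2)| with h2 | h2
    · have h3 : W (u 0) (u 2) ≠ 0 := by
        rw [← abs_pos]
        rcases hpos with h | h | h <;> linarith
      refine key 0 2 1 h3 h2 h1 fun P => ?_
      rw [hP1]
      tauto
    · have h3 : W (u 1) (u 2) ≠ 0 := by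
        rw [← abs_pos]
        rcases hpos with h | h | h <;> linarith
      refine key 1 2 0 h3 h2 (by rw [W_swap (u 1)]; linarith) fun P => ?_
      rw [hP1]
      tauto

end Pool.Agent.Helper35_RADO
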